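import Pool.Agent.Lib.MP_0c1c75_co.KA.All

/-!
# MP_0c1c75_co: the Kneser-Poulsen inequality, apex theorem

`q` a contraction of `p` in Euclidean `d`-space, `d ≥ 3`, such that the points `(p_i, q_i)` of
`E^d × E^d` lie in an affine subspace of dimension `d + 3` (no condition for `d = 3`). If there are
at most `d + 5` balls (eight balls in `E³`), or if for some `(λ, μ) ≠ (0, 0)` the numbers
`λ (|p_i|² - r_i²) + μ (|q_i|² - r_i²)` are the values of an affine function of `(p_i, q_i)` (any
number of balls), then the volume of the intersection of the balls `B[p_i, r_i]` is at most the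
volume of the intersection of the balls `B[q_i, r_i]`.

Cases of the relation: `λ + μ = 0`: `|p_i - a|² - |q_i - a'|²` is constant, any radii; `μ = 0`,
congruent balls: the centres `p_i` lie on a sphere, `q` any contraction.
-/

open MeasureTheory
open scoped RealInnerProductSpace

namespace Pool.Agent.Results.MP_0c1c75_co.ApexContraction

theorem result (d N : ℕ) (hd : 3 ≤ d) (p q : Fin N → EuclideanSpace ℝ (Fin d)) (r : Fin N → ℝ)
    (h : ∀ i j, dist (q i) (q j) ≤ dist (p i) (p j))
    (hdim : Module.finrank ℝ (Submodule.span ℝ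
      {w : EuclideanSpace ℝ (Fin d) × EuclideanSpace ℝ (Fin d) |
        ∃ i j, w = (p i - p j, q i - q j)}) ≤ d + 3)
    (hrel : N ≤ d + 5 ∨ ∃ (lam mu c : ℝ) (α β : EuclideanSpace ℝ (Fin d)),
      ¬(lam = 0 ∧ mu = 0) ∧
      ∀ i, lam * (‖p i‖ ^ 2 - r i ^ 2) + mu * (‖q i‖ ^ 2 - r i ^ 2) = ⟪α, p i⟫ + ⟪β, q i⟫ + c) :
    volume (⋂ i, Metric.closedBall (p i) (r i)) ≤
      volume (⋂ i, Metric.closedBall (q i) (r i)) :=
  Pool.Agent.Lib.MP_0c1c75_co.KA.apexThm d N p q r hd h hdim hrel

end Pool.Agent.Results.MP_0c1c75_co.ApexContraction
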