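import Pool.Agent.Lib.MP_0c1c75_co.FewAll
import Pool.Agent.Lib.MP_0c1c75_co.CluBox
import Pool.Agent.Lib.MP_0c1c75_co.CluPolar1
import Pool.Agent.Lib.MP_0c1c75_co.CluPlane1
import Pool.Agent.Lib.MP_0c1c75_co.CluQuadCone
import Pool.Agent.Lib.MP_0c1c75_co.CluCell
import Pool.Agent.Lib.MP_0c1c75_co.CluWallC
import Pool.Agent.Lib.MP_0c1c75_co.CluEst1
import Pool.Agent.Lib.MP_0c1c75_co.CluEst2
import Pool.Agent.Lib.MP_0c1c75_co.CluEst3
import Pool.Agent.Lib.MP_0c1c75_co.CluFibreL
import Pool.Agent.Lib.MP_0c1c75_co.CluFibreK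
import Pool.Agent.Lib.MP_0c1c75_co.CluFac
import Pool.Agent.Lib.MP_0c1c75_co.CluSumInt
import Pool.Agent.Lib.MP_0c1c75_co.CluMatG
import Pool.Agent.Lib.MP_0c1c75_co.CluPairFib
import Pool.Agent.Lib.MP_0c1c75_co.CluPair
import Pool.Agent.Lib.MP_0c1c75_co.CluSoftPt
import Pool.Agent.Lib.MP_0c1c75_co.CluSoftInt
import Pool.Agent.Lib.MP_0c1c75_co.CluPathC
import Pool.Agent.Lib.MP_0c1c75_co.CluGramC
import Pool.Agent.Lib.MP_0c1c75_co.CluCoreC
import Pool.Agent.Lib.MP_0c1c75_co.CluApproxC
import Pool.Agent.Lib.MP_0c1c75_co.CluStrictC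
import Pool.Agent.Lib.MP_0c1c75_co.CluInjC
import Pool.Agent.Lib.MP_0c1c75_co.CluFinalC

/-!
# MP_0c1c75_co: the Kneser-Poulsen inequality for clusters of balls

Arbitrarily many balls `B[p_i, r_i]` in Euclidean `d`-space, `q` a contraction of `p`.  If the
indices are divided into `k ≥ 4` clusters such that the span in `E^d × E^d` of the differences
`(p_i - p_j, q_i - q_j)`, `i` and `j` in the same cluster, has dimension at most `d + 4 - k`, then the
volume of the intersection of the balls `B[p_i, r_i]` is at most the volume of the intersection of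
the balls `B[q_i, r_i]`.

With one ball per cluster this is the case of at most `d + 4` balls; with four clusters it covers
all families with arbitrarily many balls in which `q_i - A p_i` takes at most four values for some
linear map `A`.
-/

open MeasureTheory

namespace Pool.Agent.Results.MP_0c1c75_co.ClusterBalls

open Pool.Agent.Lib.MP_0c1c75_co Pool.Agent.Lib.MP_0c1c75_co.Few
  Pool.Agent.Lib.MP_0c1c75_co.Clu

theorem estStmt : EstStmt := ⟨est1Stmt, est2Stmt, est3Stmt⟩

theorem quadStmt : QuadConeStmt := quadConeStmt (plane1Stmt (polar1Stmt polar2Stmt)) coneIntStmt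

theorem pairsStmt : PairStmt :=
  pairStmt (pairFibStmt (fibreLStmt (cellStmt quadStmt) estStmt boxStmt)
    (fibreKStmt (wallCStmt quadStmt) estStmt boxStmt) estStmt matGStmt boxStmt facStmt)
    estStmt sumIntStmt matGStmt boxStmt

theorem coreStmt' : CoreCStmt :=
  coreCStmt (pathCStmt pairsStmt (softIntStmt (softPtStmt matGStmt estStmt) matGStmt estStmt
    boxStmt) matGStmt estStmt boxStmt) gramCStmt

theorem result (d N k : ℕ) (hk : 4 ≤ k) (cl : Fin N → Fin k)
    (p q : Fin N → EuclideanSpace ℝ (Fin d)) (r : Fin N → ℝ)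
    (h : ∀ i j, dist (q i) (q j) ≤ dist (p i) (p j))
    (hdim : Module.finrank ℝ (Submodule.span ℝ
      {w : EuclideanSpace ℝ (Fin d) × EuclideanSpace ℝ (Fin d) |
        ∃ i j, cl i = cl j ∧ w = (p i - p j, q i - q j)}) + k ≤ d + 4) :
    volume (⋂ i, Metric.closedBall (p i) (r i)) ≤
      volume (⋂ i, Metric.closedBall (q i) (r i)) :=
  finalCStmt (injCStmt (strictCStmt coreStmt' approxCStmt sumIntStmt contStmt
    (liftStmt polar2Stmt))) d N k hk p q cl h hdim r

end Pool.Agent.Results.MP_0c1c75_co.ClusterBalls
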