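import Pool.Agent.Lib.MP_0c1c75_co.KPI.All
import Pool.Agent.Lib.MP_0c1c75_co.CdBound
import Pool.Agent.Lib.MP_0c1c75_co.JmpKir
import Pool.Agent.Lib.MP_0c1c75_co.ArLin
import Pool.Agent.Lib.MP_0c1c75_co.ArJac
import Pool.Agent.Lib.MP_0c1c75_co.ArMom
import Pool.Agent.Lib.MP_0c1c75_co.ArSF
import Pool.Agent.Lib.MP_0c1c75_co.ArUry
import Pool.Agent.Lib.MP_0c1c75_co.ArRad
import Pool.Agent.Lib.MP_0c1c75_co.ArCirc
import Pool.Agent.Lib.MP_0c1c75_co.ArMain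
import Pool.Agent.Lib.MP_0c1c75_co.ArInt

/-!
Kneser-Poulsen conjecture for intersections of balls, arbitrary radii, any number of balls: for
every `c < 1` the inequality holds for contractions by the factor `c` in all dimensions `d ≥ d₀(c)`;
in every dimension `d ≥ 2` it holds up to a constant which depends on `d` and `c` and is one for
`c ≤ e_d`, where `0.517 ≤ e_d < 1`, `0.562 ≤ e_3` and `e_d` tends to one.
-/

open MeasureTheory

namespace Pool.Agent.Results.MP_0c1c75_co.FactorContraction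

open Pool.Agent.Lib.MP_0c1c75_co (E)

/-- the constant for all contractions -/
noncomputable def constant (d : ℕ) : ℝ :=
  Real.Gamma ((d : ℝ) / 2) * (d.factorial : ℝ) / Real.Gamma (3 * (d : ℝ) / 2) *
    ((3 * (d : ℝ) / 2 - 1) ^ (3 * (d : ℝ) / 2 - 1) /
      ((d : ℝ) ^ d * ((d : ℝ) / 2 - 1) ^ ((d : ℝ) / 2 - 1)))

/-- the constant for contractions by the factor `c`, given that the inequality is exact for the
factor `e`: with `s = max 0 ((c - e) / (1 - e))` it is `(1 - s + s (constant d)^(-1/d))^(-d)` -/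
noncomputable def factorConstant (d : ℕ) (e c : ℝ) : ℝ :=
  (1 - max 0 ((c - e) / (1 - e)) +
    max 0 ((c - e) / (1 - e)) * constant d ^ (-(1 / (d : ℝ)))) ^ (-(d : ℝ))

private theorem factor_one (d : ℕ) (e c : ℝ) (he : e < 1) (hc : c ≤ e) :
    factorConstant d e c = 1 := by
  have h1 : max 0 ((c - e) / (1 - e)) = 0 :=
    max_eq_left (div_nonpos_of_nonpos_of_nonneg (by linarith) (by linarith))
  unfold factorConstant
  rw [h1, sub_zero, zero_mul, add_zero, Real.one_rpow]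

private theorem exact0 (d : ℕ) (hd : 2 ≤ d) :
    Lib.MP_0c1c75_co.KPI.Exact d (Lib.MP_0c1c75_co.Ar.c0 d) := by
  intro N p q hpq r
  have h0 : 0.517 ≤ Lib.MP_0c1c75_co.Ar.c0 d ∧ Lib.MP_0c1c75_co.Ar.c0 d < 1 := by
    unfold Lib.MP_0c1c75_co.Ar.c0
    split_ifs <;> norm_num
  have h := Lib.MP_0c1c75_co.Ar.intStmt
    (Lib.MP_0c1c75_co.Ar.mainStmt Lib.MP_0c1c75_co.Ar.basStmt
      (Lib.MP_0c1c75_co.Ar.sFStmt Lib.MP_0c1c75_co.Ar.basStmt
        (Lib.MP_0c1c75_co.Ar.linStmt Lib.MP_0c1c75_co.KPI.aGPlus)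
        (Lib.MP_0c1c75_co.Ar.momStmt Lib.MP_0c1c75_co.Ar.jacStmt))
      (Lib.MP_0c1c75_co.Ar.uryStmt Lib.MP_0c1c75_co.Ar.basStmt Lib.MP_0c1c75_co.allBM
        Lib.MP_0c1c75_co.allP Lib.MP_0c1c75_co.allV)
      (Lib.MP_0c1c75_co.Ar.radStmt Lib.MP_0c1c75_co.Ar.basStmt Lib.MP_0c1c75_co.allP
        Lib.MP_0c1c75_co.allV)
      Lib.MP_0c1c75_co.Ar.circStmt
      (Lib.MP_0c1c75_co.Jmp.kirStmt Lib.MP_0c1c75_co.allThm2) Lib.MP_0c1c75_co.allV
      Lib.MP_0c1c75_co.KPI.aThm2)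
    Lib.MP_0c1c75_co.KPI.aThm2 Lib.MP_0c1c75_co.allBM Lib.MP_0c1c75_co.allV d N hd
    (Lib.MP_0c1c75_co.Ar.c0 d) p q (by linarith) h0.2.le hpq r
  have h1 : Lib.MP_0c1c75_co.Ar.Cc d (Lib.MP_0c1c75_co.Ar.c0 d) = 1 := by
    have h2 : Lib.MP_0c1c75_co.Ar.sC d (Lib.MP_0c1c75_co.Ar.c0 d) = 0 := by
      unfold Lib.MP_0c1c75_co.Ar.sC
      rw [sub_self, zero_div, max_self]
    unfold Lib.MP_0c1c75_co.Ar.Cc
    rw [h2, sub_zero, zero_mul, add_zero, Real.one_rpow]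
  rw [h1, ENNReal.ofReal_one, one_mul] at h
  exact h

/-- Kneser-Poulsen inequality for contractions by the factor `c`, all numbers of balls, arbitrary
radii: exact for `d ≥ d₀(c)`, every `c < 1`; with the constant `factorConstant d (e d) c` for all
`d ≥ 2`, which is `1` for `c ≤ e d`. -/
theorem result :
    (∀ c : ℝ, c < 1 → ∃ d₀ : ℕ, ∀ d ≥ d₀, ∀ (N : ℕ) (p q : Fin N → EuclideanSpace ℝ (Fin d)),
      (∀ i j, dist (q i) (q j) ≤ c * dist (p i) (p j)) → ∀ r : Fin N → ℝ,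
      volume (⋂ i, Metric.closedBall (p i) (r i)) ≤
        volume (⋂ i, Metric.closedBall (q i) (r i))) ∧
    (∃ e : ℕ → ℝ, (∀ d, 0.517 ≤ e d ∧ e d < 1) ∧ 0.562 ≤ e 3 ∧
      Filter.Tendsto e Filter.atTop (nhds 1) ∧
      (∀ d N : ℕ, 2 ≤ d → ∀ c : ℝ, 0 ≤ c → c ≤ 1 → ∀ p q : Fin N → EuclideanSpace ℝ (Fin d),
        (∀ i j, dist (q i) (q j) ≤ c * dist (p i) (p j)) → ∀ r : Fin N → ℝ,
        volume (⋂ i, Metric.closedBall (p i) (r i)) ≤
          ENNReal.ofReal (factorConstant d (e d) c) *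
            volume (⋂ i, Metric.closedBall (q i) (r i))) ∧
      ∀ (d : ℕ) (c : ℝ), c ≤ e d → factorConstant d (e d) c = 1) ∧
    constant 2 = 1 ∧ constant 3 ≤ 1.93 ∧ ∀ d : ℕ, 2 ≤ d → constant d ≤ 4 * √(d : ℝ) := by
  obtain ⟨e, he, he3, het, hex⟩ :=
    Lib.MP_0c1c75_co.KPI.exactSeq Lib.MP_0c1c75_co.KPI.aKPI exact0
  refine ⟨fun c hc => ?_, ⟨e, he, he3, het, fun d N hd c hc0 hc1 p q hpq r => ?_,
    fun d c hc => factor_one d (e d) c (he d).2 hc⟩, Lib.MP_0c1c75_co.Cp_two,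
    Lib.MP_0c1c75_co.Cp_three, fun d hd => Lib.MP_0c1c75_co.Cp_le d hd⟩
  · obtain ⟨D, hD⟩ := Filter.eventually_atTop.mp
      ((tendsto_order.1 het).1 c hc)
    refine ⟨max D 2, fun d hd N p q hpq r => ?_⟩
    have h1 := hD d ((le_max_left _ _).trans hd)
    refine hex d ((le_max_right _ _).trans hd) N p q (fun i j => (hpq i j).trans ?_) r
    exact mul_le_mul_of_nonneg_right h1.le dist_nonneg
  · exact Lib.MP_0c1c75_co.KPI.genInt Lib.MP_0c1c75_co.KPI.aThm2 Lib.MP_0c1c75_co.allBM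
      Lib.MP_0c1c75_co.allV d hd (e d) (by linarith [(he d).1]) (he d).2
      (fun N p q h r => hex d hd N p q h r) N c p q hc0 hc1 hpq r

end Pool.Agent.Results.MP_0c1c75_co.FactorContraction
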