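import Pool.Agent.Lib.MP_0c1c75_co.TG.Top

/-!
# MP_0c1c75_co: the Kneser-Poulsen inequality when a positive semidefinite matrix lies between the
two Gram matrices

For centres `p, q : Fin N → E^d`, `d ≥ 3`, and radii `r_i` put
`G^p_ij = (r_i² + r_j² - |p_i - p_j|²) / 2` and `G^q_ij` in the same way; `q` is a contraction of `p`
if and only if `G^p ≤ G^q` entrywise. If some positive semidefinite matrix `G` satisfies
`G^p ≤ G ≤ G^q` entrywise (equivalently: there are vectors `R_i` in some Euclidean space with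
`|R_i| = r_i` and `|q_i - q_j| ≤ |R_i - R_j| ≤ |p_i - p_j|`), then the volume of the intersection of
the balls `B[p_i, r_i]` is at most the volume of the intersection of the balls `B[q_i, r_i]`.

Special cases, proved below, for all `d ≥ 3` and all `N`: uniform contractions of congruent balls;
all contractions if the balls `B[p_i, r_i]` (or the balls `B[q_i, r_i]`) have a common radical centre
which is contained in them; congruent balls and contractions by the factor `sin t / t` if the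
centres `p_i` lie in a ball of radius `t r` (by the factor `sin 1` in all cases); congruent balls of
large radius, with an explicit bound.
-/

open MeasureTheory

namespace Pool.Agent.Results.MP_0c1c75_co.GramContraction

theorem result (d N : ℕ) (hd : 3 ≤ d) (p q : Fin N → EuclideanSpace ℝ (Fin d)) (r : Fin N → ℝ)
    (h : (⋂ i, Metric.closedBall (p i) (r i)).Nonempty →
      ∃ G : Matrix (Fin N) (Fin N) ℝ, G.PosSemidef ∧ ∀ i j,
        r i ^ 2 + r j ^ 2 - dist (p i) (p j) ^ 2 ≤ 2 * G i j ∧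
        2 * G i j ≤ r i ^ 2 + r j ^ 2 - dist (q i) (q j) ^ 2) :
    volume (⋂ i, Metric.closedBall (p i) (r i)) ≤
      volume (⋂ i, Metric.closedBall (q i) (r i)) := by
  refine Pool.Agent.Lib.MP_0c1c75_co.TG.top_gra d N p q r hd fun hne => ?_
  obtain ⟨G, hG, hb⟩ := h hne
  refine ⟨G, hG, fun i => ?_, hb⟩
  obtain ⟨h1, h2⟩ := hb i i
  simp only [dist_self] at h1 h2
  nlinarith

/-- Uniform contractions of congruent balls: `|q_i - q_j| ≤ L ≤ |p_i - p_j|` for `i ≠ j`. -/
theorem uniform (d N : ℕ) (hd : 3 ≤ d) (p q : Fin N → EuclideanSpace ℝ (Fin d)) (L r : ℝ)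
    (h : ∀ i j, i ≠ j → dist (q i) (q j) ≤ L ∧ L ≤ dist (p i) (p j)) :
    volume (⋂ i, Metric.closedBall (p i) r) ≤ volume (⋂ i, Metric.closedBall (q i) r) :=
  Pool.Agent.Lib.MP_0c1c75_co.TG.top_uni d N p q L r hd h

/-- Any contraction, if `r_i² = |p_i - a|² + c` for all `i`, or `r_i² = |q_i - a|² + c` for all `i`,
with `c ≥ 0`. -/
theorem radical (d N : ℕ) (hd : 3 ≤ d) (p q : Fin N → EuclideanSpace ℝ (Fin d)) (r : Fin N → ℝ)
    (a : EuclideanSpace ℝ (Fin d)) (c : ℝ) (hc : 0 ≤ c)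
    (h : ∀ i j, dist (q i) (q j) ≤ dist (p i) (p j))
    (hr : (∀ i, r i ^ 2 = dist (p i) a ^ 2 + c) ∨ (∀ i, r i ^ 2 = dist (q i) a ^ 2 + c)) :
    volume (⋂ i, Metric.closedBall (p i) (r i)) ≤ volume (⋂ i, Metric.closedBall (q i) (r i)) :=
  Pool.Agent.Lib.MP_0c1c75_co.TG.top_sph d N p q r a c hd hc h hr

/-- Congruent balls, contraction by the factor `sin 1 = 0.841...`. -/
theorem factor (d N : ℕ) (hd : 3 ≤ d) (p q : Fin N → EuclideanSpace ℝ (Fin d)) (r : ℝ)
    (h : ∀ i j, dist (q i) (q j) ≤ Real.sin 1 * dist (p i) (p j)) :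
    volume (⋂ i, Metric.closedBall (p i) r) ≤ volume (⋂ i, Metric.closedBall (q i) r) :=
  Pool.Agent.Lib.MP_0c1c75_co.TG.top_fac d N p q r hd h

/-- Congruent balls, all `p_i` in a ball of radius `t r`, contraction by the factor `sin t / t`. -/
theorem factor_circum (d N : ℕ) (hd : 3 ≤ d) (p q : Fin N → EuclideanSpace ℝ (Fin d)) (r t : ℝ)
    (a : EuclideanSpace ℝ (Fin d)) (ht : 0 < t) (ht1 : t ≤ 1) (ha : ∀ i, dist (p i) a ≤ t * r)
    (h : ∀ i j, dist (q i) (q j) ≤ Real.sin t / t * dist (p i) (p j)) :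
    volume (⋂ i, Metric.closedBall (p i) r) ≤ volume (⋂ i, Metric.closedBall (q i) r) :=
  Pool.Agent.Lib.MP_0c1c75_co.TG.top_cir d N p q r t a hd ht ht1 ha h

/-- Congruent balls of large radius. -/
theorem large_radius (d N : ℕ) (hd : 3 ≤ d) (p q : Fin N → EuclideanSpace ℝ (Fin d)) (r : ℝ)
    (hr : 0 < r) (h : ∀ i j, dist (q i) (q j) ^ 2 ≤
      2 * r ^ 2 * (1 - Real.exp (-(dist (p i) (p j) ^ 2 / (2 * r ^ 2))))) :
    volume (⋂ i, Metric.closedBall (p i) r) ≤ volume (⋂ i, Metric.closedBall (q i) r) :=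
  Pool.Agent.Lib.MP_0c1c75_co.TG.top_lrg d N p q r hd hr h

end Pool.Agent.Results.MP_0c1c75_co.GramContraction
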